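import Mathlib
set_option autoImplicit false
namespace Pool.Agent.Results.MP_c19edd_an.CantorType

open Finset

noncomputable def xx (n : ℕ) : ℝ := (1 / 2) ^ n + (-1 / 3) ^ n
noncomputable def r (n : ℕ) : ℝ := (1 / 2) ^ n - (-1 / 3) ^ n / 4
noncomputable def s : ℕ → ℕ → ℝ
  | 0, _ => 0
  | K + 1, a => s K (a / 2) + (if a % 2 = 1 then (-1 / 3) ^ (K + 1) else 0)
noncomputable def c (K a : ℕ) : ℝ := a * (1 / 2) ^ K + s K a

theorem abs_third (n : ℕ) : |(-1 / 3 : ℝ) ^ n| = (1 / 3) ^ n := by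
  rw [abs_pow]; norm_num [abs_div]

theorem third_le (n : ℕ) : (-1 / 3 : ℝ) ^ n ≤ (1 / 3) ^ n := (le_abs_self _).trans (abs_third n).le
theorem neg_third_le (n : ℕ) : -(1 / 3 : ℝ) ^ n ≤ (-1 / 3) ^ n := by
  have := neg_abs_le ((-1 / 3 : ℝ) ^ n)
  rwa [abs_third] at this
theorem third_pos (n : ℕ) : (0 : ℝ) < (1 / 3) ^ n := by positivity
theorem third_le_half (n : ℕ) : (1 / 3 : ℝ) ^ n ≤ (1 / 2) ^ n :=
  pow_le_pow_left₀ (by norm_num) (by norm_num) n

theorem c_succ (K a : ℕ) : c (K + 1) a = c K (a / 2) + (if a % 2 = 1 then xx (K + 1) else 0) := by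
  unfold c xx
  rw [s]
  have h1 : (a : ℝ) = 2 * ((a / 2 : ℕ) : ℝ) + ((a % 2 : ℕ) : ℝ) := by
    exact_mod_cast (Nat.div_add_mod a 2).symm
  rcases Nat.mod_two_eq_zero_or_one a with h | h
  · rw [h] at h1 ⊢
    simp only [Nat.cast_zero, add_zero, zero_ne_one, if_false] at h1 ⊢
    rw [h1, pow_succ]; ring
  · rw [h] at h1 ⊢
    simp only [Nat.cast_one, if_true] at h1 ⊢
    rw [h1, pow_succ]; ring

theorem r_succ (K : ℕ) : r K = xx (K + 1) + r (K + 1) := by
  unfold r xx
  rw [pow_succ, pow_succ]; ring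

theorem xx_pos (n : ℕ) (hn : 1 ≤ n) : 0 < xx n := by
  unfold xx
  have h1 := neg_third_le n
  have h2 : (1 / 3 : ℝ) ^ n < (1 / 2) ^ n := pow_lt_pow_left₀ (by norm_num) (by norm_num) (by omega)
  linarith

theorem r_pos (n : ℕ) : 0 < r n := by
  unfold r
  have h1 := third_le n
  have h2 := third_le_half n
  have h3 := third_pos n
  linarith

theorem r_le (n : ℕ) : r n ≤ (1 / 2) ^ n + (1 / 3) ^ n / 4 := by
  unfold r
  have h1 := neg_third_le n
  linarith

theorem c_le (K L a : ℕ) : c K (a / 2 ^ L) ≤ c (K + L) a := by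
  induction L generalizing a with
  | zero => simp
  | succ L ih =>
    rw [← add_assoc, c_succ]
    have h1 := ih (a / 2)
    rw [Nat.div_div_eq_div_mul, ← pow_succ'] at h1
    have h2 := xx_pos (K + L + 1) (by omega)
    split_ifs <;> linarith

theorem cr_le (K L a : ℕ) : c (K + L) a + r (K + L) ≤ c K (a / 2 ^ L) + r K := by
  induction L generalizing a with
  | zero => simp
  | succ L ih =>
    rw [← add_assoc, c_succ]
    have h1 := ih (a / 2)
    rw [Nat.div_div_eq_div_mul, ← pow_succ'] at h1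
    have h2 := xx_pos (K + L + 1) (by omega)
    have h3 := r_succ (K + L)
    split_ifs <;> linarith

theorem s_bd' (K L a : ℕ) : |s (K + L) a - s K (a / 2 ^ L)| ≤ (1 / 3) ^ K / 2 * (1 - (1 / 3) ^ L) := by
  induction L generalizing a with
  | zero => simp
  | succ L ih =>
    rw [← add_assoc, s]
    have h1 := ih (a / 2)
    rw [Nat.div_div_eq_div_mul, ← pow_succ'] at h1
    have h2 : |(if a % 2 = 1 then (-1 / 3 : ℝ) ^ (K + L + 1) else 0)| ≤ (1 / 3) ^ (K + L + 1) := by
      split_ifs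
      · exact (abs_third _).le
      · simp
    have h3 := abs_add_le (s (K + L) (a / 2) - s K (a / 2 ^ (L + 1)))
      (if a % 2 = 1 then (-1 / 3 : ℝ) ^ (K + L + 1) else 0)
    have h4 : (1 / 3 : ℝ) ^ (K + L + 1) = (1 / 3) ^ K * (1 / 3) ^ L / 3 := by
      rw [pow_succ, pow_add]; ring
    have h5 : s (K + L) (a / 2) + (if a % 2 = 1 then (-1 / 3 : ℝ) ^ (K + L + 1) else 0) -
        s K (a / 2 ^ (L + 1)) = (s (K + L) (a / 2) - s K (a / 2 ^ (L + 1))) +
      (if a % 2 = 1 then (-1 / 3 : ℝ) ^ (K + L + 1) else 0) := by ring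
    rw [h5]
    refine h3.trans ((add_le_add h1 h2).trans ?_)
    rw [h4, pow_succ]
    nlinarith [third_pos K, third_pos L]

theorem s_bd (K L a : ℕ) : |s (K + L) a - s K (a / 2 ^ L)| ≤ (1 / 3) ^ K / 2 := by
  refine (s_bd' K L a).trans ?_
  nlinarith [third_pos K, third_pos L, mul_pos (third_pos K) (third_pos L)]

noncomputable def T (K : ℕ) (α β : ℝ) : Finset ℕ :=
  (range (2 ^ K)).filter (fun a => c K a < β ∧ α < c K a + r K)

theorem mem_T {K a : ℕ} {α β : ℝ} : a ∈ T K α β ↔ a < 2 ^ K ∧ c K a < β ∧ α < c K a + r K := by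
  unfold T; rw [mem_filter, mem_range]

theorem T_anc {K L a : ℕ} {α β : ℝ} (h : a ∈ T (K + L) α β) : a / 2 ^ L ∈ T K α β := by
  rw [mem_T] at h ⊢
  obtain ⟨h1, h2, h3⟩ := h
  refine ⟨?_, (c_le K L a).trans_lt h2, h3.trans_le (cr_le K L a)⟩
  rw [Nat.div_lt_iff_lt_mul (by positivity), ← pow_add]; exact h1

theorem T_mono {K : ℕ} {α β α' β' : ℝ} (h1 : α ≤ α') (h2 : β' ≤ β) : T K α' β' ⊆ T K α β := by
  intro a ha
  rw [mem_T] at ha ⊢
  exact ⟨ha.1, ha.2.1.trans_le h2, h1.trans_lt ha.2.2⟩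

theorem T_card_le (K : ℕ) (α β : ℝ) : (T K α β).card ≤ 2 ^ K := by
  refine (card_filter_le _ _).trans ?_
  rw [card_range]

/-- avoiding finitely many points -/
theorem avoid (P : Finset ℝ) (m : ℕ) (hP : P.card ≤ m) (α β : ℝ) (h : α < β) :
    ∃ α' β', α ≤ α' ∧ β' ≤ β ∧ β' - α' = (β - α) / (m + 1) ∧ ∀ p ∈ P, ¬ (α' < p ∧ p < β') := by
  by_contra hcon
  push Not at hcon
  set h0 : ℝ := (β - α) / (m + 1) with hh0
  have hm : (0 : ℝ) < m + 1 := by positivity
  have hh0pos : 0 < h0 := div_pos (by linarith) hm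
  have hmul : (m + 1) * h0 = β - α := by rw [hh0]; field_simp
  have hex : ∀ k : ℕ, k < m + 1 → ∃ p ∈ P, α + k * h0 < p ∧ p < α + (k + 1) * h0 := by
    intro k hk
    have hk' : (k : ℝ) + 1 ≤ m + 1 := by exact_mod_cast hk
    obtain ⟨p, hp, h1, h2⟩ := hcon (α + k * h0) (α + (k + 1) * h0)
      (by have : (0 : ℝ) ≤ k * h0 := by positivity
          linarith)
      (by have := mul_le_mul_of_nonneg_right hk' hh0pos.le
          linarith)
      (by ring)
    exact ⟨p, hp, h1, h2⟩
  choose! f hf using hex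
  have hinj : Set.InjOn f (range (m + 1)) := by
    intro k hk l hl hkl
    rw [coe_range, Set.mem_Iio] at hk hl
    obtain ⟨_, h1, h2⟩ := hf k hk
    obtain ⟨_, h3, h4⟩ := hf l hl
    rw [hkl] at h1 h2
    have h5 : (k : ℝ) * h0 < (l + 1) * h0 := by linarith
    have h6 : (l : ℝ) * h0 < (k + 1) * h0 := by linarith
    have h7 : (k : ℝ) < l + 1 := lt_of_mul_lt_mul_right h5 hh0pos.le
    have h8 : (l : ℝ) < k + 1 := lt_of_mul_lt_mul_right h6 hh0pos.le
    have h9 : k < l + 1 := by exact_mod_cast h7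
    have h10 : l < k + 1 := by exact_mod_cast h8
    omega
  have hcard : (range (m + 1)).card ≤ P.card := by
    apply card_le_card_of_injOn f _ hinj
    intro k hk
    rw [coe_range, Set.mem_Iio] at hk
    exact (hf k hk).1
  rw [card_range] at hcard
  omega


theorem card_bd (S : Finset ℕ) (lo hi : ℝ) (h0 : lo ≤ hi) (h : ∀ a ∈ S, lo < (a : ℝ) ∧ (a : ℝ) < hi) :
    (S.card : ℝ) ≤ hi - lo + 1 := by
  rcases S.eq_empty_or_nonempty with rfl | hne
  · simp; linarith
  · have h1 := h _ (S.min'_mem hne)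
    have h2 := h _ (S.max'_mem hne)
    have h3 : S ⊆ Icc (S.min' hne) (S.max' hne) := fun a ha => by
      rw [mem_Icc]; exact ⟨S.min'_le a ha, S.le_max' a ha⟩
    have h4 := card_le_card h3
    rw [Nat.card_Icc] at h4
    have h5 : S.min' hne ≤ S.max' hne := S.min'_le _ (S.max'_mem hne)
    have h6 : (S.card : ℝ) ≤ (S.max' hne : ℝ) + 1 - (S.min' hne : ℝ) := by
      have h7 : S.card + S.min' hne ≤ S.max' hne + 1 := by omega
      have h8 : (S.card : ℝ) + (S.min' hne : ℝ) ≤ (S.max' hne : ℝ) + 1 := by exact_mod_cast h7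
      linarith
    linarith [h1.1, h2.2]

open MeasureTheory in
theorem cover (A : Finset ℕ) (l : ℕ → ℝ) (h : ℝ) (hh : 0 ≤ h) (m : ℕ) (α β : ℝ) (hab : α ≤ β)
    (hcov : ∀ y, α < y → y < β → m ≤ (A.filter (fun a => l a < y ∧ y < l a + h)).card) :
    m * (β - α) ≤ A.card * h := by
  have h1 : ∫⁻ _ in Set.Ioo α β, (m : ENNReal) ≤
      ∫⁻ y in Set.Ioo α β, ∑ a ∈ A, (Set.Ioo (l a) (l a + h)).indicator (fun _ => (1 : ENNReal)) y := by
    apply setLIntegral_mono' measurableSet_Ioo
    intro y hy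
    have h2 := hcov y hy.1 hy.2
    have h3 : ∑ a ∈ A, (Set.Ioo (l a) (l a + h)).indicator (fun _ => (1 : ENNReal)) y =
        ((A.filter (fun a => l a < y ∧ y < l a + h)).card : ENNReal) := by
      simp only [Set.indicator_apply, Set.mem_Ioo]
      rw [Finset.sum_boole]
    rw [h3]
    exact_mod_cast h2
  rw [lintegral_finset_sum _ (fun a _ => measurable_const.indicator measurableSet_Ioo)] at h1
  have h4 : ∑ a ∈ A, ∫⁻ y in Set.Ioo α β, (Set.Ioo (l a) (l a + h)).indicator (fun _ => (1 : ENNReal)) y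
      ≤ ∑ _a ∈ A, ENNReal.ofReal h := by
    apply Finset.sum_le_sum
    intro a _
    refine (setLIntegral_le_lintegral _ _).trans ?_
    rw [lintegral_indicator measurableSet_Ioo]
    simp
  rw [Finset.sum_const, nsmul_eq_mul] at h4
  have h5 := h1.trans h4
  rw [setLIntegral_const, Real.volume_Ioo] at h5
  have h6 : ENNReal.ofReal ((m : ℝ) * (β - α)) ≤ ENNReal.ofReal ((A.card : ℝ) * h) := by
    rw [ENNReal.ofReal_mul (by positivity), ENNReal.ofReal_mul (by positivity)]
    simpa using h5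
  rwa [ENNReal.ofReal_le_ofReal_iff (by positivity)] at h6

theorem count (j N L : ℕ) (α β : ℝ) (hab : α ≤ β) (hT : (T N α β).card ≤ j) :
    ((T (N + L) α β).card : ℝ) * (1 / 2) ^ (N + L) ≤
      j * ((β - α) + r (N + L) + (1 / 3) ^ N + (1 / 2) ^ (N + L)) := by
  set u : ℝ := (1 / 2) ^ (N + L) with hu
  have hupos : 0 < u := by positivity
  have h1 := card_eq_sum_card_fiberwise (s := T (N + L) α β) (t := T N α β) (f := fun a => a / 2 ^ L)
    (fun a ha => T_anc ha)
  have hr := r_pos (N + L)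
  have h2 : ∀ q ∈ T N α β, (((T (N + L) α β).filter (fun a => a / 2 ^ L = q)).card : ℝ) * u ≤
      (β - α) + r (N + L) + (1 / 3) ^ N + u := by
    intro q _
    have h3 := card_bd ((T (N + L) α β).filter (fun a => a / 2 ^ L = q))
      ((α - r (N + L) - s N q - (1 / 3) ^ N / 2) / u) ((β - s N q + (1 / 3) ^ N / 2) / u)
      (by apply div_le_div_of_nonneg_right _ hupos.le
          have := third_pos N
          linarith)
      (by
        intro a ha
        rw [mem_filter, mem_T] at ha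
        obtain ⟨⟨_, h4, h5⟩, h6⟩ := ha
        have h7 := abs_le.1 (s_bd N L a)
        rw [h6] at h7
        unfold c at h4 h5
        constructor
        · rw [div_lt_iff₀ hupos]; linarith [h7.1, h7.2]
        · rw [lt_div_iff₀ hupos]; linarith [h7.1, h7.2])
    have h4 := mul_le_mul_of_nonneg_right h3 hupos.le
    refine h4.trans (le_of_eq ?_)
    field_simp
    ring
  have h3 : ((T (N + L) α β).card : ℝ) * u = ∑ q ∈ T N α β,
      (((T (N + L) α β).filter (fun a => a / 2 ^ L = q)).card : ℝ) * u := by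
    rw [← sum_mul]
    congr 1
    exact_mod_cast h1
  rw [h3]
  refine (sum_le_sum h2).trans ?_
  rw [sum_const, nsmul_eq_mul]
  apply mul_le_mul_of_nonneg_right (by exact_mod_cast hT)
  have := third_pos N
  linarith

theorem stepA (j N : ℕ) (hj : 1 ≤ j) (α β : ℝ) (hT : (T N α β).card ≤ j)
    (hB : 4 * j * (1 / 3) ^ N ≤ β - α) (L : ℕ) (hK1 : 64 * j * (1 / 2) ^ (N + L) ≤ β - α)
    (hK2 : 2 * j * (1 / 3 : ℝ) ^ (N + L) ≤ (1 / 2) ^ (N + L)) :
    ∃ α' β', α ≤ α' ∧ β' ≤ β ∧ β' - α' = (1 / 2) ^ (N + L) / (8 * j) ∧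
      (T (N + L) α' β').card ≤ j := by
  have hJ : (1 : ℝ) ≤ j := by exact_mod_cast hj
  set J : ℝ := (j : ℝ) with hJdef
  set u : ℝ := (1 / 2) ^ (N + L) with hu
  have hupos : 0 < u := by positivity
  set e : ℝ := (1 / 3) ^ N with he
  have hepos : 0 < e := by positivity
  set κ : ℝ := u / (16 * J) with hκ
  have hκpos : 0 < κ := by positivity
  have hκJ : κ * J = u / 16 := by rw [hκ]; field_simp
  have hκu : κ ≤ u / 16 := by nlinarith
  set ℓ : ℝ := β - α with hℓ
  have hℓpos : 0 < ℓ := lt_of_lt_of_le (by positivity) hK1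
  by_contra hcon
  push Not at hcon
  have hcount := count j N L α β (by linarith) hT
  rw [← hu, ← he, ← hℓ] at hcount
  set ρ : ℝ := r (N + L) with hρ
  have hρpos : 0 < ρ := r_pos _
  have hρle : J * ρ ≤ J * u + u / 8 := by
    have h1 := r_le (N + L)
    rw [← hρ, ← hu] at h1
    nlinarith
  have huℓ : 64 * u ≤ ℓ := by nlinarith
  have hcov := cover (T (N + L) α β) (fun a => c (N + L) a - κ) (ρ + 2 * κ) (by linarith) (j + 1)
    (α + κ) (β - κ) (by linarith) (by
      intro y hy1 hy2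
      have h1 := hcon (y - κ) (y + κ) (by linarith) (by linarith) (by rw [hκ]; field_simp; ring)
      refine (Nat.succ_le_of_lt h1).trans (card_le_card ?_)
      intro a ha
      have h2 := T_mono (K := N + L) (α := α) (β := β) (α' := y - κ) (β' := y + κ) (by linarith) (by linarith) ha
      rw [mem_T] at ha
      rw [mem_filter]
      refine ⟨h2, ?_, ?_⟩
      · linarith [ha.2.1]
      · have := ha.2.2
        linarith)
  push_cast at hcov
  rw [← hJdef] at hcov
  set A : ℝ := ((T (N + L) α β).card : ℝ) with hA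
  have hApos : 0 ≤ A := by positivity
  have h1 : (J + 1) * (β - κ - (α + κ)) * (J * u) ≤ (A * u) * (J * (ρ + 2 * κ)) := by
    have := mul_le_mul_of_nonneg_right hcov (by positivity : 0 ≤ J * u)
    linarith
  have h2 : J * (ρ + 2 * κ) ≤ u * (J + 1 / 4) := by nlinarith
  have h3 : (A * u) * (J * (ρ + 2 * κ)) ≤ (J * (ℓ + ρ + e + u)) * (u * (J + 1 / 4)) := by
    apply mul_le_mul hcount h2 (by positivity)
    have : 0 < ℓ + ρ + e + u := by linarith
    positivity
  have h4 : (J + 1) * (ℓ - 2 * κ) ≤ (ℓ + ρ + e + u) * (J + 1 / 4) := by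
    have h5 : ((J + 1) * (ℓ - 2 * κ)) * (J * u) ≤ ((ℓ + ρ + e + u) * (J + 1 / 4)) * (J * u) := by
      have h6 : β - κ - (α + κ) = ℓ - 2 * κ := by rw [hℓ]; ring
      rw [h6] at h1
      calc _ ≤ _ := h1
        _ ≤ _ := h3
        _ = _ := by ring
    exact le_of_mul_le_mul_right h5 (by positivity)
  have h5 : ρ ≤ 2 * u := by nlinarith
  nlinarith


theorem goodlevel (K L0 L' j : ℕ) (S : Finset ℕ) (hS : S.card ≤ j) (D : ℕ → ℝ)
    (hK : 8 * (1 / 3 : ℝ) ^ K ≤ (1 / 2) ^ (K + (L0 + (j + 1) * (L' + 2)))) :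
    ∃ n, K + L0 ≤ n ∧ n + L' ≤ K + (L0 + (j + 1) * (L' + 2)) ∧ Even n ∧
      ∀ a ∈ S, ∀ k, n ≤ k → k ≤ n + L' → ∀ o : ℤ, Odd o →
        2 * (1 / 3 : ℝ) ^ K < |D a - o * (1 / 2) ^ k| := by
  have uniq : ∀ a k k' : ℕ, k < k' → k' ≤ K + (L0 + (j + 1) * (L' + 2)) → ∀ o o' : ℤ, Odd o → Odd o' →
      |D a - o * (1 / 2) ^ k| ≤ 2 * (1 / 3 : ℝ) ^ K → |D a - o' * (1 / 2) ^ k'| ≤ 2 * (1 / 3 : ℝ) ^ K →
      False := by
    intro a k k' hkk hk' o o' ho ho' h1 h2
    obtain ⟨d, rfl⟩ := Nat.exists_eq_add_of_lt hkk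
    have h3 : |(o * 2 ^ (d + 1) - o' : ℤ)| ≥ 1 := by
      apply Int.one_le_abs
      intro h0
      have h4 : o' = o * 2 ^ (d + 1) := by linarith
      rw [h4] at ho'
      have : Even (o * 2 ^ (d + 1)) := by
        rw [pow_succ, ← mul_assoc]; exact even_two.mul_left _
      exact (Int.not_even_iff_odd.2 ho') this
    have h4 : |(o : ℝ) * (1 / 2) ^ k - o' * (1 / 2) ^ (k + d + 1)| ≤ 4 * (1 / 3) ^ K := by
      have h5 : (o : ℝ) * (1 / 2) ^ k - o' * (1 / 2) ^ (k + d + 1) =
          (D a - o' * (1 / 2) ^ (k + d + 1)) - (D a - o * (1 / 2) ^ k) := by ring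
      rw [h5]
      refine (abs_sub _ _).trans ?_
      linarith
    have h5 : (o : ℝ) * (1 / 2) ^ k - o' * (1 / 2) ^ (k + d + 1) =
        ((o * 2 ^ (d + 1) - o' : ℤ) : ℝ) * (1 / 2) ^ (k + d + 1) := by
      push_cast
      have : (1 / 2 : ℝ) ^ k = 2 ^ (d + 1) * (1 / 2) ^ (k + d + 1) := by
        rw [add_assoc, pow_add (1 / 2 : ℝ) k (d + 1)]
        have : (2 : ℝ) ^ (d + 1) * (1 / 2) ^ (d + 1) = 1 := by
          rw [← mul_pow]; norm_num
        linear_combination -(1 / 2 : ℝ) ^ k * this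
      rw [this]; ring
    rw [h5, abs_mul] at h4
    have h6 : (1 : ℝ) ≤ |((o * 2 ^ (d + 1) - o' : ℤ) : ℝ)| := by
      rw [← Int.cast_abs]; exact_mod_cast h3
    have h7 : (1 / 2 : ℝ) ^ (K + (L0 + (j + 1) * (L' + 2))) ≤ (1 / 2) ^ (k + d + 1) :=
      pow_le_pow_of_le_one (by norm_num) (by norm_num) hk'
    have h8 : |(1 / 2 : ℝ) ^ (k + d + 1)| = (1 / 2) ^ (k + d + 1) := abs_of_pos (by positivity)
    rw [h8] at h4
    have h9 := third_pos K
    nlinarith [show (0 : ℝ) < (1 / 2) ^ (k + d + 1) by positivity]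
  have block : ∃ b, b ≤ j ∧ ∀ k, K + L0 + b * (L' + 2) ≤ k → k < K + L0 + (b + 1) * (L' + 2) →
      ∀ a ∈ S, ∀ o : ℤ, Odd o → 2 * (1 / 3 : ℝ) ^ K < |D a - o * (1 / 2) ^ k| := by
    by_contra hcon
    push Not at hcon
    choose! f hf1 hf2 g hg hg2 using hcon
    have hinj : Set.InjOn g (range (j + 1)) := by
      have key : ∀ b b', b < b' → b' ≤ j → g b ≠ g b' := by
        intro b b' hbb hb' heq
        obtain ⟨o, ho, h1⟩ := hg2 b (by omega)
        obtain ⟨o', ho', h2⟩ := hg2 b' hb'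
        rw [← heq] at h2
        have h3 := hf2 b (by omega)
        have h4 := hf1 b' hb'
        have h5 := hf2 b' hb'
        have h6 : (b + 1) * (L' + 2) ≤ b' * (L' + 2) := Nat.mul_le_mul_right _ hbb
        have h7 : (b' + 1) * (L' + 2) ≤ (j + 1) * (L' + 2) := Nat.mul_le_mul_right _ (by omega)
        exact uniq (g b) (f b) (f b') (by omega) (by omega) o o' ho ho' h1 h2
      intro b hb b' hb' heq
      rw [coe_range, Set.mem_Iio] at hb hb'
      rcases lt_trichotomy b b' with h | h | h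
      · exact absurd heq (key b b' h (by omega))
      · exact h
      · exact absurd heq.symm (key b' b h (by omega))
    have hcard : (range (j + 1)).card ≤ S.card := by
      apply card_le_card_of_injOn g _ hinj
      intro b hb
      rw [coe_range, Set.mem_Iio] at hb
      exact hg b (by omega)
    rw [card_range] at hcard
    omega
  obtain ⟨b, hb, hgood⟩ := block
  have h7 : (b + 1) * (L' + 2) ≤ (j + 1) * (L' + 2) := Nat.mul_le_mul_right _ (by omega)
  have h8 : (b + 1) * (L' + 2) = b * (L' + 2) + (L' + 2) := by ring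
  rcases Nat.even_or_odd (K + L0 + b * (L' + 2)) with hpar | hpar
  · refine ⟨K + L0 + b * (L' + 2), by omega, by omega, hpar, ?_⟩
    intro a ha k hk1 hk2 o ho
    exact hgood k hk1 (by omega) a ha o ho
  · refine ⟨K + L0 + b * (L' + 2) + 1, by omega, by omega, hpar.add_one, ?_⟩
    intro a ha k hk1 hk2 o ho
    exact hgood k (by omega) (by omega) a ha o ho

theorem dvd_or (t : ℕ) : ∀ M : ℤ, ¬ ((2 : ℤ) ^ (t + 1) ∣ M) → ∃ e ≤ t, ∃ o : ℤ, Odd o ∧ M = o * 2 ^ e := by
  induction t with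
  | zero =>
    intro M hM
    refine ⟨0, le_rfl, M, ?_, by simp⟩
    rw [← Int.not_even_iff_odd, even_iff_two_dvd]
    simpa using hM
  | succ t ih =>
    intro M hM
    rcases Int.even_or_odd' M with ⟨m, hm | hm⟩
    · have h1 : ¬ ((2 : ℤ) ^ (t + 1) ∣ m) := by
        intro h
        apply hM
        rw [hm, pow_succ']
        exact mul_dvd_mul_left 2 h
      obtain ⟨e, he, o, ho, h2⟩ := ih m h1
      exact ⟨e + 1, by omega, o, ho, by rw [hm, h2]; ring⟩
    · exact ⟨0, by omega, M, ⟨m, hm⟩, by simp⟩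

theorem stepB (j : ℕ) (hj : 1 ≤ j) : ∃ K0, ∀ K ≥ K0, ∀ α β : ℝ,
    (1 / 2) ^ K / (8 * j) ≤ β - α → (T K α β).card ≤ j →
    ∃ N', K ≤ N' ∧ ∃ α' β', α ≤ α' ∧ β' ≤ β ∧ α' < β' ∧ (T N' α' β').card ≤ j - 1 ∧
      4 * j * (1 / 3) ^ N' ≤ β' - α' := by
  have hJ : (1 : ℝ) ≤ j := by exact_mod_cast hj
  set J : ℝ := (j : ℝ) with hJdef
  set L' := 4 * j * (j + 1) with hL'
  set L0 := 64 * j * (2 * j + 1) with hL0
  set Lt := L0 + (j + 1) * (L' + 2) with hLt
  have hL0' : (1 / 2 : ℝ) ^ L0 * (64 * J * (2 * J + 1)) ≤ 1 := by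
    have h1 : (L0 : ℝ) ≤ 2 ^ L0 := by exact_mod_cast Nat.lt_two_pow_self.le
    have h2 : (L0 : ℝ) = 64 * J * (2 * J + 1) := by rw [hL0]; push_cast; ring
    rw [← h2]
    have h3 : (1 / 2 : ℝ) ^ L0 * 2 ^ L0 = 1 := by rw [← mul_pow]; norm_num
    have h4 : (0 : ℝ) < (1 / 2) ^ L0 := by positivity
    nlinarith
  have hL'3 : 4 * J * (J + 1) * (1 / 3 : ℝ) ^ L' ≤ 1 := by
    have h1 : (L' : ℝ) ≤ 3 ^ L' := by
      have : L' < 3 ^ L' := Nat.lt_pow_self (by norm_num)
      exact_mod_cast this.le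
    have h2 : (L' : ℝ) = 4 * J * (J + 1) := by rw [hL']; push_cast; ring
    rw [← h2]
    have h3 : (1 / 3 : ℝ) ^ L' * 3 ^ L' = 1 := by rw [← mul_pow]; norm_num
    have h4 := third_pos L'
    nlinarith
  have hlim : ∃ K0, ∀ K ≥ K0, 8 * (1 / 3 : ℝ) ^ K ≤ (1 / 2) ^ (K + Lt) := by
    have h1 : Filter.Tendsto (fun n : ℕ => (2 / 3 : ℝ) ^ n) Filter.atTop (nhds 0) :=
      tendsto_pow_atTop_nhds_zero_of_lt_one (by norm_num) (by norm_num)
    have h2 := h1.eventually_le_const (show (0 : ℝ) < (1 / 2) ^ Lt / 8 by positivity)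
    obtain ⟨K0, h3⟩ := Filter.eventually_atTop.1 h2
    refine ⟨K0, fun K hK => ?_⟩
    have h4 := h3 K hK
    have h5 : (1 / 3 : ℝ) ^ K = (2 / 3) ^ K * (1 / 2) ^ K := by rw [← mul_pow]; norm_num
    rw [h5, pow_add]
    have h6 : (0 : ℝ) < (1 / 2) ^ K := by positivity
    nlinarith
  obtain ⟨K0, hK0⟩ := hlim
  refine ⟨K0, fun K hKK α β hαβ hT => ?_⟩
  have hK := hK0 K hKK
  have huK : (0 : ℝ) < (1 / 2) ^ K := by positivity
  have hαβ' : α < β := by
    have : (0 : ℝ) < (1 / 2) ^ K / (8 * J) := by positivity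
    linarith
  -- B1
  obtain ⟨α1, β1, hα1, hβ1, hlen1, hav1⟩ := avoid ((T K α β).image (c K) ∪
    (T K α β).image (fun a => c K a + r K)) (2 * j)
    ((card_union_le _ _).trans (by
      have h1 := card_image_le (s := T K α β) (f := c K)
      have h2 := card_image_le (s := T K α β) (f := fun a => c K a + r K)
      omega)) α β hαβ'
  have hh : (1 / 2 : ℝ) ^ K ≤ (β1 - α1) * (8 * J * (2 * J + 1)) := by
    rw [hlen1]
    push_cast
    rw [← hJdef]
    rw [div_le_iff₀ (by positivity)] at hαβ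
    have : (β - α) / (2 * J + 1) * (8 * J * (2 * J + 1)) = (β - α) * (8 * J) := by
      field_simp
    rw [this]; exact hαβ
  have hαβ1 : α1 < β1 := by
    by_contra hcon
    have h1 : (β1 - α1) * (8 * J * (2 * J + 1)) ≤ 0 :=
      mul_nonpos_of_nonpos_of_nonneg (by linarith) (by positivity)
    linarith
  rcases (T K α1 β1).eq_empty_or_nonempty with hemp | ⟨q1, hq1⟩
  · -- choose N' large
    have h1 : Filter.Tendsto (fun n : ℕ => (1 / 3 : ℝ) ^ n) Filter.atTop (nhds 0) :=
      tendsto_pow_atTop_nhds_zero_of_lt_one (by norm_num) (by norm_num)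
    have h2 := h1.eventually_le_const (show (0 : ℝ) < (β1 - α1) / (4 * J) by
      apply div_pos (by linarith) (by positivity))
    obtain ⟨n0, h3⟩ := Filter.eventually_atTop.1 h2
    refine ⟨K + n0, by omega, α1, β1, hα1, hβ1, hαβ1, ?_, ?_⟩
    · have : T (K + n0) α1 β1 = ∅ := by
        rw [Finset.eq_empty_iff_forall_notMem]
        intro a ha
        have := T_anc ha
        rw [hemp] at this
        simp at this
      rw [this]; simp
    · have h4 := h3 (K + n0) (by omega)
      rw [le_div_iff₀ (by positivity)] at h4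
      linarith
  have hq1' := T_mono hα1 hβ1 hq1
  have hq1m := mem_T.1 hq1
  have hcq1 : c K q1 ≤ α1 := by
    by_contra hcon
    exact hav1 (c K q1) (mem_union_left _ (mem_image_of_mem _ hq1')) ⟨by linarith, hq1m.2.1⟩
  have hrq1 : β1 ≤ c K q1 + r K := by
    by_contra hcon
    exact hav1 (c K q1 + r K) (mem_union_right _ (mem_image_of_mem (fun a => c K a + r K) hq1'))
      ⟨hq1m.2.2, by linarith⟩
  -- B2
  obtain ⟨n, hn1, hn2, hneven, hgood⟩ := goodlevel K L0 L' j (T K α β) hT (fun a => c K a - c K q1) hK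
  have hL0pos : 1 ≤ L0 := by rw [hL0]; nlinarith
  obtain ⟨M, rfl⟩ : ∃ M, n = K + M + 1 := ⟨n - K - 1, by omega⟩
  have h3K := third_pos K
  have hML : M + 1 + L' ≤ Lt := by omega
  have hML0 : L0 ≤ M + 1 := by omega
  set h : ℝ := β1 - α1 with hhdef
  set v : ℝ := (1 / 2) ^ (K + M + 1) with hv
  set t : ℝ := (1 / 3) ^ (K + M + 1) with ht
  have hvpos : 0 < v := by positivity
  have htpos : 0 < t := by positivity
  have hw1 : (1 / 2 : ℝ) ^ (K + M) = 2 * v := by rw [hv, pow_succ]; ring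
  have htK : t ≤ (1 / 3) ^ K / 3 := by
    rw [ht, pow_succ, pow_add]
    have : (1 / 3 : ℝ) ^ M ≤ 1 := pow_le_one₀ (by norm_num) (by norm_num)
    nlinarith
  have hKL0 : (1 / 2 : ℝ) ^ (K + L0) ≤ h / 8 := by
    rw [pow_add]
    have h1 : (1 / 2 : ℝ) ^ K * (1 / 2) ^ L0 ≤ (h * (8 * J * (2 * J + 1))) * (1 / 2) ^ L0 :=
      mul_le_mul_of_nonneg_right hh (by positivity)
    have h2 : (h * (8 * J * (2 * J + 1))) * (1 / 2) ^ L0 = h / 8 * ((1 / 2) ^ L0 * (64 * J * (2 * J + 1))) := by ring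
    have h3 : h / 8 * ((1 / 2) ^ L0 * (64 * J * (2 * J + 1))) ≤ h / 8 * 1 :=
      mul_le_mul_of_nonneg_left hL0' (by linarith)
    linarith
  have hvh : v ≤ h / 8 := by
    refine le_trans ?_ hKL0
    rw [hv]
    exact pow_le_pow_of_le_one (by norm_num) (by norm_num) (by omega)
  have h3h : (1 / 3 : ℝ) ^ K ≤ h / 64 := by
    have h1 : (1 / 2 : ℝ) ^ (K + Lt) ≤ (1 / 2) ^ (K + L0) :=
      pow_le_pow_of_le_one (by norm_num) (by norm_num) (by omega)
    linarith
  have hrn : r (K + M + 1) = v - t / 4 := by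
    unfold r
    rw [show (-1 / 3 : ℝ) = -(1 / 3) by norm_num, hneven.neg_pow]
  have hxn : xx (K + M + 1) = v + t := by
    unfold xx
    rw [show (-1 / 3 : ℝ) = -(1 / 3) by norm_num, hneven.neg_pow]
  -- B3
  set ys : ℝ := (α1 + β1) / 2 - s K q1 with hys
  have hys1 : (q1 : ℝ) * (1 / 2) ^ K ≤ ys := by
    unfold c at hcq1
    rw [hys]; linarith
  have hys2 : ys < (q1 + 1 : ℝ) * (1 / 2) ^ K := by
    unfold c at hrq1
    have h1 := r_le K
    rw [hys]; linarith
  have hinv : (1 / 2 : ℝ) ^ (K + M) * 2 ^ (K + M) = 1 := by rw [← mul_pow]; norm_num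
  have hinvK : (1 / 2 : ℝ) ^ K * 2 ^ (K + M) = 2 ^ M := by
    rw [pow_add, ← mul_assoc, ← mul_pow]; norm_num
  set q := ⌊ys * 2 ^ (K + M)⌋₊ with hq
  have hyspos : 0 ≤ ys * 2 ^ (K + M) := by
    have : 0 ≤ (q1 : ℝ) * (1 / 2) ^ K := by positivity
    have h2 : 0 ≤ ys := by linarith
    positivity
  have hqle : (q : ℝ) ≤ ys * 2 ^ (K + M) := Nat.floor_le hyspos
  have hqlt : ys * 2 ^ (K + M) < q + 1 := Nat.lt_floor_add_one _
  have hqle' : (q : ℝ) * (2 * v) ≤ ys := by
    have := mul_le_mul_of_nonneg_right hqle (show (0 : ℝ) ≤ (1 / 2) ^ (K + M) by positivity)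
    rw [← hw1]
    calc _ ≤ _ := this
      _ = ys * ((1 / 2) ^ (K + M) * 2 ^ (K + M)) := by ring
      _ = ys := by rw [hinv, mul_one]
  have hqlt' : ys < (q + 1 : ℝ) * (2 * v) := by
    have := mul_lt_mul_of_pos_right hqlt (show (0 : ℝ) < (1 / 2) ^ (K + M) by positivity)
    rw [← hw1]
    calc ys = ys * ((1 / 2) ^ (K + M) * 2 ^ (K + M)) := by rw [hinv, mul_one]
      _ = ys * 2 ^ (K + M) * (1 / 2) ^ (K + M) := by ring
      _ < _ := this
  have hqanc1 : q1 * 2 ^ M ≤ q := by
    apply Nat.le_floor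
    push_cast
    have := mul_le_mul_of_nonneg_right hys1 (show (0 : ℝ) ≤ 2 ^ (K + M) by positivity)
    rw [mul_assoc, hinvK] at this
    exact this
  have hqanc2 : q < (q1 + 1) * 2 ^ M := by
    have h1 := mul_lt_mul_of_pos_right hys2 (show (0 : ℝ) < 2 ^ (K + M) by positivity)
    rw [mul_assoc, hinvK] at h1
    have h2 : (q : ℝ) < ((q1 + 1) * 2 ^ M : ℕ) := by push_cast; linarith
    exact_mod_cast h2
  have hqanc : q / 2 ^ M = q1 := by
    apply Nat.div_eq_of_lt_le
    · exact hqanc1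
    · exact hqanc2
  have hsq := abs_le.1 (s_bd K M q)
  rw [hqanc] at hsq
  set g1 : ℝ := c (K + M) q + r (K + M + 1) with hg1
  set g2 : ℝ := c (K + M) q + xx (K + M + 1) with hg2
  have hg1e : g1 = (2 * q + 1) * v + s (K + M) q - t / 4 := by
    rw [hg1, hrn, c, hw1]; ring
  have hg2e : g2 = (2 * q + 1) * v + s (K + M) q + t := by
    rw [hg2, hxn, c, hw1]; ring
  have hg1α : α1 ≤ g1 := by rw [hg1e]; linarith [hsq.1]
  have hg2β : g2 ≤ β1 := by rw [hg2e]; linarith [hsq.2]
  have hg12 : g1 < g2 := by rw [hg1e, hg2e]; linarith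
  have hv3 : 8 * (1 / 3 : ℝ) ^ K ≤ v := by
    refine hK.trans ?_
    rw [hv]
    exact pow_le_pow_of_le_one (by norm_num) (by norm_num) (by omega)
  -- B4
  set F := (range (2 ^ (K + M))).filter (fun q' => q' / 2 ^ M ∈ T K α β ∧
    g1 < c (K + M) q' + r (K + M + 1) ∧ c (K + M) q' + r (K + M + 1) < g2) with hF
  have hFcard : F.card ≤ j := by
    refine le_trans (card_le_card_of_injOn (fun q' => q' / 2 ^ M) ?_ ?_) hT
    · intro q' hq'
      rw [hF, mem_coe, mem_filter] at hq'
      exact hq'.2.1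
    · have key : ∀ a b, a ∈ F → b ∈ F → a / 2 ^ M = b / 2 ^ M → a < b → False := by
        intro a b ha hb hab hlt
        rw [hF, mem_filter] at ha hb
        have h1 := abs_le.1 (s_bd K M a)
        have h2 := abs_le.1 (s_bd K M b)
        rw [hab] at h1
        have h3 := ha.2.2
        have h4 := hb.2.2
        rw [c, hw1] at h3 h4
        have h5 : (a : ℝ) + 1 ≤ b := by exact_mod_cast hlt
        have h6 : ((a : ℝ) + 1) * (2 * v) ≤ b * (2 * v) := mul_le_mul_of_nonneg_right h5 (by linarith)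
        rw [hg1e, hg2e] at *
        linarith [h1.1, h1.2, h2.1, h2.2, h3.1, h3.2, h4.1, h4.2]
      intro a ha b hb hab
      rcases lt_trichotomy a b with h | h | h
      · exact absurd (key a b ha hb hab h) id
      · exact h
      · exact absurd (key b a hb ha hab.symm h) id
  obtain ⟨α2, β2, hα2, hβ2, hlen2, hav2⟩ := avoid (F.image (fun q' => c (K + M) q' + r (K + M + 1))) j
    (card_image_le.trans hFcard) g1 g2 hg12
  have hlen2' : (β2 - α2) * (J + 1) = 5 / 4 * t := by
    rw [hlen2, ← hJdef, hg1e, hg2e]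
    field_simp
    ring
  have hαβ2 : α2 < β2 := by
    by_contra hcon
    have h1 : (β2 - α2) * (J + 1) ≤ 0 := mul_nonpos_of_nonpos_of_nonneg (by linarith) (by linarith)
    linarith
  refine ⟨K + (M + 1 + L'), by omega, α2, β2, by linarith, by linarith, hαβ2, ?_, ?_⟩
  · set w : ℝ := (1 / 2) ^ (K + (M + 1 + L')) with hw
    have hwpos : 0 < w := by positivity
    have hw3 : 8 * (1 / 3 : ℝ) ^ K ≤ w :=
      hK.trans (pow_le_pow_of_le_one (by norm_num) (by norm_num) (by omega))
    have hvw : v = 2 ^ L' * w := by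
      rw [hv, hw, show K + (M + 1 + L') = (K + M + 1) + L' by ring, pow_add (1 / 2 : ℝ) (K + M + 1) L']
      have : (2 : ℝ) ^ L' * (1 / 2) ^ L' = 1 := by rw [← mul_pow]; norm_num
      linear_combination -(1 / 2 : ℝ) ^ (K + M + 1) * this
    have hKw : (1 / 2 : ℝ) ^ K = 2 ^ (M + 1 + L') * w := by
      rw [hw, pow_add (1 / 2 : ℝ) K (M + 1 + L')]
      have : (2 : ℝ) ^ (M + 1 + L') * (1 / 2) ^ (M + 1 + L') = 1 := by rw [← mul_pow]; norm_num
      linear_combination -(1 / 2 : ℝ) ^ K * this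
    have hrN : r (K + (M + 1 + L')) ≤ w + (1 / 3) ^ K / 12 := by
      have h1 := r_le (K + (M + 1 + L'))
      have h2 : (1 / 3 : ℝ) ^ (K + (M + 1 + L')) ≤ (1 / 3) ^ K / 3 := by
        rw [show K + (M + 1 + L') = K + (M + L') + 1 by ring, pow_succ, pow_add (1 / 3 : ℝ) K (M + L')]
        have : (1 / 3 : ℝ) ^ (M + L') ≤ 1 := pow_le_one₀ (by norm_num) (by norm_num)
        nlinarith
      linarith
    have est : ∀ a ∈ T (K + (M + 1 + L')) α2 β2,
        (a : ℝ) * w < (2 * q + 1) * v - (s K (a / 2 ^ (M + 1 + L')) - s K q1) + 4 / 3 * (1 / 3) ^ K ∧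
        (2 * q + 1) * v - (s K (a / 2 ^ (M + 1 + L')) - s K q1) - w - 4 / 3 * (1 / 3) ^ K
          < (a : ℝ) * w := by
      intro a ha
      have h1 := mem_T.1 ha
      have h2 := abs_le.1 (s_bd K (M + 1 + L') a)
      have h3 := h1.2.1
      have h4 := h1.2.2
      rw [c, ← hw] at h3 h4
      rw [hg2e] at hβ2
      rw [hg1e] at hα2
      constructor
      · linarith [h2.1, h2.2, hsq.1, hsq.2]
      · linarith [h2.1, h2.2, hsq.1, hsq.2]
    have hcn : ∀ a, c (K + M + 1) (a / 2 ^ L') ≤ c (K + (M + 1 + L')) a := by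
      intro a
      have h1 := c_le (K + M + 1) L' a
      rwa [show K + M + 1 + L' = K + (M + 1 + L') by ring] at h1
    have hcrn : ∀ a, c (K + (M + 1 + L')) a + r (K + (M + 1 + L')) ≤
        c (K + M + 1) (a / 2 ^ L') + r (K + M + 1) := by
      intro a
      have h1 := cr_le (K + M + 1) L' a
      rwa [show K + M + 1 + L' = K + (M + 1 + L') by ring] at h1
    have hodd : ∀ z : ℕ, c (K + M + 1) (2 * z + 1) = c (K + M) z + xx (K + M + 1) := by
      intro z
      rw [c_succ, show (2 * z + 1) / 2 = z by omega, show (2 * z + 1) % 2 = 1 by omega]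
      simp
    have heven : ∀ z : ℕ, c (K + M + 1) (2 * z) = c (K + M) z := by
      intro z
      rw [c_succ, show (2 * z) / 2 = z by omega, show (2 * z) % 2 = 0 by omega]
      simp
    have hdivodd : ∀ z : ℕ, (2 ^ L' * (2 * z + 1)) / 2 ^ L' = 2 * z + 1 := fun z =>
      Nat.mul_div_cancel_left _ (by positivity)
    have hdiveven : ∀ z a : ℕ, a + 1 = 2 ^ L' * (2 * z + 1) → a / 2 ^ L' = 2 * z := by
      intro z a ha
      have hp : 0 < 2 ^ L' := by positivity
      apply Nat.div_eq_of_lt_le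
      · have : 2 * z * 2 ^ L' + 2 ^ L' = a + 1 := by rw [ha]; ring
        omega
      · have : (2 * z + 1) * 2 ^ L' = a + 1 := by rw [ha]; ring
        omega
    have hcard : (T (K + (M + 1 + L')) α2 β2).card ≤ ((T K α β).erase q1).card := by
      apply card_le_card_of_injOn (fun a => a / 2 ^ (M + 1 + L'))
      · intro a ha
        rw [mem_coe] at ha
        rw [mem_coe, mem_erase]
        refine ⟨?_, T_mono (by linarith) (by linarith) (T_anc ha)⟩
        intro hanc
        simp only at hanc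
        obtain ⟨e1, e2⟩ := est a ha
        rw [hanc, sub_self, sub_zero, hvw] at e1 e2
        have h1 := mem_T.1 ha
        have h3 : (a : ℝ) * w < ((2 ^ L' * (2 * q + 1) : ℕ) + 1 : ℝ) * w := by
          push_cast; linarith
        have h4 : ((2 ^ L' * (2 * q + 1) : ℕ) : ℝ) * w < (a + 2 : ℝ) * w := by
          push_cast; linarith
        have h5 : (a : ℝ) < ((2 ^ L' * (2 * q + 1) : ℕ) + 1 : ℝ) := lt_of_mul_lt_mul_right h3 hwpos.le
        have h6 : ((2 ^ L' * (2 * q + 1) : ℕ) : ℝ) < (a + 2 : ℝ) := lt_of_mul_lt_mul_right h4 hwpos.le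
        have h7 : a < 2 ^ L' * (2 * q + 1) + 1 := by exact_mod_cast h5
        have h8 : 2 ^ L' * (2 * q + 1) < a + 2 := by exact_mod_cast h6
        rcases (by omega : a = 2 ^ L' * (2 * q + 1) ∨ a + 1 = 2 ^ L' * (2 * q + 1)) with h9 | h9
        · have h10 := hcn a
          rw [h9, hdivodd, hodd, ← hg2, ← h9] at h10
          linarith [h1.2.1]
        · have h10 := hcrn a
          rw [hdiveven q a h9, heven, ← hg1] at h10
          linarith [h1.2.2]
      · have key : ∀ a b, a ∈ T (K + (M + 1 + L')) α2 β2 → b ∈ T (K + (M + 1 + L')) α2 β2 →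
            a / 2 ^ (M + 1 + L') = b / 2 ^ (M + 1 + L') → a < b → False := by
          intro a b ha hb hab hlt
          obtain ⟨e1, e2⟩ := est a ha
          obtain ⟨e3, e4⟩ := est b hb
          rw [hab] at e1 e2
          have h3 : (b : ℝ) * w < (a + 2 : ℝ) * w := by linarith
          have h4 : (b : ℝ) < (a + 2 : ℝ) := lt_of_mul_lt_mul_right h3 hwpos.le
          have h5 : b < a + 2 := by exact_mod_cast h4
          have h6 : b = a + 1 := by omega
          have h6' : (b : ℝ) = a + 1 := by rw [h6]; push_cast; ring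
          set a0 := b / 2 ^ (M + 1 + L') with ha0
          have ha0T : a0 ∈ T K α β := T_mono (by linarith) (by linarith) (T_anc hb)
          set S := s K a0 - s K q1 with hS
          have hD : c K a0 - c K q1 = ((a0 : ℝ) - q1) * (1 / 2) ^ K + S := by
            rw [c, c, hS]; ring
          set M0 : ℤ := ((a0 : ℤ) - q1) * 2 ^ (M + 1 + L') + (2 * q + 1) * 2 ^ L' - b with hM0
          have hM0w : (M0 : ℝ) * w = ((a0 : ℝ) - q1) * (1 / 2) ^ K + (2 * q + 1) * v - b * w := by
            rw [hM0, hKw, hvw]; push_cast; ring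
          have hclose : |(c K a0 - c K q1) - M0 * w| < 4 / 3 * (1 / 3) ^ K := by
            rw [hD, hM0w, abs_lt]
            constructor
            · rw [h6'] at *
              linarith
            · linarith
          by_cases hdvd : (2 : ℤ) ^ (L' + 1) ∣ M0
          · obtain ⟨m, hm⟩ := hdvd
            have h7 : (b : ℤ) = 2 ^ L' * (2 * (((a0 : ℤ) - q1) * 2 ^ M + q - m) + 1) := by
              have h8 : (b : ℤ) = ((a0 : ℤ) - q1) * 2 ^ (M + 1 + L') + (2 * q + 1) * 2 ^ L' - M0 := by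
                rw [hM0]; ring
              rw [h8, hm, pow_succ, pow_add (2 : ℤ) (M + 1) L', pow_succ]; ring
            set z : ℤ := ((a0 : ℤ) - q1) * 2 ^ M + q - m with hz
            have hbpos : (0 : ℤ) < b := by
              have : 0 < b := by omega
              exact_mod_cast this
            have hzpos : 0 < 2 * z + 1 := by
              rw [h7] at hbpos
              exact (mul_pos_iff_of_pos_left (by positivity)).1 hbpos
            lift z to ℕ using (by omega) with z' hz'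
            have h8 : b = 2 ^ L' * (2 * z' + 1) := by exact_mod_cast h7
            have h9 := hcn b
            have h10 := hcrn a
            have hbT := mem_T.1 hb
            have haT := mem_T.1 ha
            rw [hdiveven z' a (by omega), heven] at h10
            have h11 : b / 2 ^ L' = 2 * z' + 1 := by rw [h8, hdivodd]
            rw [h11, hodd] at h9
            have h12 : α2 < c (K + M) z' + r (K + M + 1) := by linarith [haT.2.2]
            have h13 : c (K + M) z' + r (K + M + 1) < β2 := by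
              rw [hrn]
              rw [hxn] at h9
              linarith [hbT.2.1]
            have hzF : z' ∈ F := by
              rw [hF, mem_filter, mem_range]
              refine ⟨?_, ?_, by linarith, by linarith⟩
              · have h14 := hbT.1
                rw [h8, show K + (M + 1 + L') = L' + (K + M + 1) by ring, pow_add 2 L' (K + M + 1)] at h14
                have h15 : 2 * z' + 1 < 2 ^ (K + M + 1) := lt_of_mul_lt_mul_left h14 (Nat.zero_le _)
                rw [pow_succ] at h15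
                omega
              · have h14 : z' / 2 ^ M = a0 := by
                  rw [ha0, show M + 1 + L' = L' + (1 + M) by ring, pow_add 2 L' (1 + M), ← Nat.div_div_eq_div_mul,
                    h11, pow_add, ← Nat.div_div_eq_div_mul]
                  congr 1
                  omega
                rw [h14]; exact ha0T
            exact hav2 _ (mem_image_of_mem (fun q' => c (K + M) q' + r (K + M + 1)) hzF) ⟨h12, h13⟩
          · obtain ⟨e, he, o, ho, h7⟩ := dvd_or L' M0 hdvd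
            have h8 := hgood a0 ha0T (K + M + 1 + (L' - e)) (by omega) (by omega) o ho
            have h9 : (o : ℝ) * (1 / 2) ^ (K + M + 1 + (L' - e)) = M0 * w := by
              rw [h7, hw, show K + (M + 1 + L') = (K + M + 1 + (L' - e)) + e by omega,
                pow_add (1 / 2 : ℝ) _ e]
              have : (2 : ℝ) ^ e * (1 / 2) ^ e = 1 := by rw [← mul_pow]; norm_num
              push_cast
              linear_combination -(o : ℝ) * (1 / 2) ^ (K + M + 1 + (L' - e)) * this
            rw [h9] at h8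
            linarith
        intro a ha b hb hab
        rcases lt_trichotomy a b with h | h | h
        · exact absurd (key a b ha hb hab h) id
        · exact h
        · exact absurd (key b a hb ha hab.symm h) id
    rw [card_erase_of_mem hq1'] at hcard
    omega
  · have h1 : (1 / 3 : ℝ) ^ (K + (M + 1 + L')) = t * (1 / 3) ^ L' := by
      rw [ht, ← pow_add]; congr 1; ring
    rw [h1]
    have h2 : (4 * J * (t * (1 / 3) ^ L')) * (J + 1) ≤ (β2 - α2) * (J + 1) := by
      rw [hlen2']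
      have : (4 * J * (t * (1 / 3) ^ L')) * (J + 1) = t * (4 * J * (J + 1) * (1 / 3 : ℝ) ^ L') := by ring
      rw [this]
      nlinarith
    exact le_of_mul_le_mul_right h2 (by linarith)


theorem main_ind (E : Set ℝ) (hE : ∀ y ∈ E, ∀ K, ∃ a, a < 2 ^ K ∧ c K a ≤ y ∧ y ≤ c K a + r K) :
    ∀ (j N : ℕ) (α β : ℝ), α < β → (T N α β).card ≤ j → 4 * j * (1 / 3) ^ N ≤ β - α →
      ∃ y, α < y ∧ y < β ∧ y ∉ E := by
  intro j
  induction j with
  | zero =>
    intro N α β hab hT _
    refine ⟨(α + β) / 2, by linarith, by linarith, fun hy => ?_⟩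
    obtain ⟨a, ha, h1, h2⟩ := hE _ hy N
    have : a ∈ T N α β := mem_T.2 ⟨ha, by linarith, by linarith⟩
    have h0 : T N α β = ∅ := Finset.card_eq_zero.1 (Nat.le_zero.1 hT)
    rw [h0] at this
    simp at this
  | succ j ih =>
    intro N α β hab hT hB
    obtain ⟨K0, hK0⟩ := stepB (j + 1) (by omega)
    obtain ⟨L, hL1, hL2, hL3⟩ : ∃ L, K0 ≤ N + L ∧ 64 * ((j + 1 : ℕ) : ℝ) * (1 / 2) ^ (N + L) ≤ β - α ∧
        2 * ((j + 1 : ℕ) : ℝ) * (1 / 3) ^ (N + L) ≤ (1 / 2) ^ (N + L) := by
      have hJ : (0 : ℝ) < ((j + 1 : ℕ) : ℝ) := by positivity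
      have h1 : Filter.Tendsto (fun n : ℕ => (1 / 2 : ℝ) ^ n) Filter.atTop (nhds 0) :=
        tendsto_pow_atTop_nhds_zero_of_lt_one (by norm_num) (by norm_num)
      have h2 : Filter.Tendsto (fun n : ℕ => (2 / 3 : ℝ) ^ n) Filter.atTop (nhds 0) :=
        tendsto_pow_atTop_nhds_zero_of_lt_one (by norm_num) (by norm_num)
      have h3 := h1.eventually_le_const (show (0 : ℝ) < (β - α) / (64 * ((j + 1 : ℕ) : ℝ)) by
        apply div_pos (by linarith) (by positivity))
      have h4 := h2.eventually_le_const (show (0 : ℝ) < 1 / (2 * ((j + 1 : ℕ) : ℝ)) by positivity)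
      obtain ⟨n1, hn1⟩ := Filter.eventually_atTop.1 (h3.and h4)
      obtain ⟨h5, h6⟩ := hn1 (N + (n1 + K0)) (by omega)
      refine ⟨n1 + K0, by omega, ?_, ?_⟩
      · rw [le_div_iff₀ (by positivity)] at h5
        linarith
      · rw [le_div_iff₀ (by positivity)] at h6
        have h7 : (1 / 3 : ℝ) ^ (N + (n1 + K0)) = (2 / 3) ^ (N + (n1 + K0)) * (1 / 2) ^ (N + (n1 + K0)) := by
          rw [← mul_pow]; norm_num
        rw [h7]
        have h8 : (0 : ℝ) < (1 / 2) ^ (N + (n1 + K0)) := by positivity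
        nlinarith
    obtain ⟨α', β', h1, h2, h3, h4⟩ := stepA (j + 1) N (by omega) α β hT hB L hL2 hL3
    obtain ⟨N', h5, α'', β'', h6, h7, h8, h9, h10⟩ := hK0 (N + L) hL1 α' β' (le_of_eq h3.symm) h4
    obtain ⟨y, hy1, hy2, hy3⟩ := ih N' α'' β'' h8 (by simpa using h9) (by
      refine le_trans ?_ h10
      push_cast
      have := third_pos N'
      nlinarith)
    exact ⟨y, by linarith, by linarith, hy3⟩

theorem no_interval (E : Set ℝ) (hE : ∀ y ∈ E, ∀ K, ∃ a, a < 2 ^ K ∧ c K a ≤ y ∧ y ≤ c K a + r K)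
    (α β : ℝ) (hab : α < β) : ∃ y, α < y ∧ y < β ∧ y ∉ E := by
  have h1 : Filter.Tendsto (fun n : ℕ => (2 / 3 : ℝ) ^ n) Filter.atTop (nhds 0) :=
    tendsto_pow_atTop_nhds_zero_of_lt_one (by norm_num) (by norm_num)
  have h2 := h1.eventually_le_const (show (0 : ℝ) < (β - α) / 4 by linarith)
  obtain ⟨N, hN⟩ := Filter.eventually_atTop.1 h2
  apply main_ind E hE (2 ^ N) N α β hab (T_card_le N α β)
  have h3 := hN N le_rfl
  have h4 : (2 / 3 : ℝ) ^ N = 2 ^ N * (1 / 3) ^ N := by rw [← mul_pow]; norm_num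
  rw [h4] at h3
  push_cast
  linarith

/-- The sequence `x_n = 2^{-n} + (-1)^n 3^{-n}`. -/
noncomputable def x (n : ℕ) : ℝ := 1 / 2 ^ n + (-1) ^ n / 3 ^ n

/-- The achievement set `E(x_n)`: all subsums over sets `A ⊆ {1, 2, 3, ...}`. -/
def E : Set ℝ := {y | ∃ A : Set ℕ, 0 ∉ A ∧ y = ∑' n : ℕ, A.indicator x n}

theorem x_eq (n : ℕ) : x n = xx n := by
  unfold x xx
  rw [div_pow, div_pow, one_pow]

theorem hasSum_tail (K : ℕ) : HasSum (fun n => x (n + (K + 1))) (r K) := by
  have h1 : HasSum (fun n : ℕ => (1 / 2 : ℝ) ^ n) 2 := hasSum_geometric_two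
  have h2 : HasSum (fun n : ℕ => (-1 / 3 : ℝ) ^ n) (1 - (-1 / 3))⁻¹ :=
    hasSum_geometric_of_abs_lt_one (by rw [abs_lt]; constructor <;> norm_num)
  have h3 := (h1.mul_left ((1 / 2 : ℝ) ^ (K + 1))).add (h2.mul_left ((-1 / 3 : ℝ) ^ (K + 1)))
  have h4 : (1 / 2 : ℝ) ^ (K + 1) * 2 + (-1 / 3) ^ (K + 1) * (1 - (-1 / 3))⁻¹ = r K := by
    unfold r; rw [pow_succ, pow_succ]; norm_num; ring
  rw [h4] at h3
  have h5 : (fun n => x (n + (K + 1))) =
      fun b => (1 / 2 : ℝ) ^ (K + 1) * (1 / 2) ^ b + (-1 / 3) ^ (K + 1) * (-1 / 3) ^ b := by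
    funext n
    rw [x_eq, xx, pow_add, pow_add]; ring
  rw [h5]; exact h3

theorem x_pos (n : ℕ) : 0 < x n := by
  rcases Nat.eq_zero_or_pos n with rfl | h
  · norm_num [x]
  · rw [x_eq]; exact xx_pos n h

theorem summable_x : Summable x := by
  have := (hasSum_tail 0).summable
  exact (summable_nat_add_iff 1).1 this

theorem summable_ind (A : Set ℕ) : Summable (A.indicator x) := summable_x.indicator A

theorem ind_nonneg (A : Set ℕ) (n : ℕ) : 0 ≤ A.indicator x n :=
  Set.indicator_nonneg (fun n _ => (x_pos n).le) n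

theorem ind_le (A : Set ℕ) (n : ℕ) : A.indicator x n ≤ x n :=
  Set.indicator_le_self' (fun n _ => (x_pos n).le) n

open Classical in
theorem E_cover : ∀ y ∈ E, ∀ K, ∃ a, a < 2 ^ K ∧ c K a ≤ y ∧ y ≤ c K a + r K := by
  rintro y ⟨A, hA, rfl⟩ K
  have key : ∀ K, ∃ a, a < 2 ^ K ∧ c K a = ∑ n ∈ range (K + 1), A.indicator x n := by
    intro K
    induction K with
    | zero => exact ⟨0, by norm_num, by simp [c, s, hA]⟩
    | succ K ih =>
      obtain ⟨a, ha, h⟩ := ih
      rw [sum_range_succ, ← h]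
      by_cases hK : K + 1 ∈ A
      · refine ⟨2 * a + 1, by rw [pow_succ]; omega, ?_⟩
        rw [c_succ, show (2 * a + 1) / 2 = a by omega, show (2 * a + 1) % 2 = 1 by omega,
          Set.indicator_of_mem hK, x_eq]
        simp
      · refine ⟨2 * a, by rw [pow_succ]; omega, ?_⟩
        rw [c_succ, show (2 * a) / 2 = a by omega, show (2 * a) % 2 = 0 by omega,
          Set.indicator_of_notMem hK]
        simp
  obtain ⟨a, ha, h⟩ := key K
  refine ⟨a, ha, ?_⟩
  have h1 := (summable_ind A).sum_add_tsum_nat_add (K + 1)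
  rw [← h] at h1
  have h2 : 0 ≤ ∑' i, A.indicator x (i + (K + 1)) := tsum_nonneg fun i => ind_nonneg A _
  have h3 : ∑' i, A.indicator x (i + (K + 1)) ≤ r K := by
    rw [← (hasSum_tail K).tsum_eq]
    exact Summable.tsum_le_tsum (fun i => ind_le A _) ((summable_nat_add_iff (K + 1)).2 (summable_ind A))
      (hasSum_tail K).summable
  constructor <;> linarith

theorem E_compact : IsCompact E := by
  have hE : E = Set.range (fun b : ℕ → Bool => ∑' n : ℕ, (if b n then x (n + 1) else 0)) := by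
    ext y
    constructor
    · rintro ⟨A, hA, rfl⟩
      classical
      refine ⟨fun n => decide (n + 1 ∈ A), ?_⟩
      have h1 := (summable_ind A).sum_add_tsum_nat_add 1
      rw [sum_range_one, Set.indicator_of_notMem hA, zero_add] at h1
      rw [← h1]
      apply tsum_congr
      intro n
      simp [Set.indicator_apply]
    · rintro ⟨b, rfl⟩
      refine ⟨{n | n ≠ 0 ∧ b (n - 1) = true}, by simp, ?_⟩
      have h1 := (summable_ind {n | n ≠ 0 ∧ b (n - 1) = true}).sum_add_tsum_nat_add 1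
      rw [sum_range_one, Set.indicator_of_notMem (by simp), zero_add] at h1
      rw [← h1]
      apply tsum_congr
      intro n
      simp [Set.indicator_apply]
  rw [hE]
  apply isCompact_range
  apply continuous_tsum (u := fun n => x (n + 1))
  · intro n
    exact (continuous_of_discreteTopology (f := fun t : Bool => if t then x (n + 1) else 0)).comp
      (continuous_apply n)
  · exact (hasSum_tail 0).summable
  · intro n b
    split_ifs
    · rw [Real.norm_of_nonneg (x_pos _).le]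
    · simpa using (x_pos _).le

theorem x_tendsto : Filter.Tendsto x Filter.atTop (nhds 0) := summable_x.tendsto_atTop_zero

theorem E_perfect : Perfect E := by
  refine ⟨E_compact.isClosed, ?_⟩
  rintro y ⟨A, hA, rfl⟩
  rw [accPt_iff_nhds]
  intro U hU
  obtain ⟨ε, hε, hball⟩ := Metric.mem_nhds_iff.1 hU
  have h1 := x_tendsto.eventually_lt_const hε
  obtain ⟨n, hn⟩ := Filter.eventually_atTop.1 h1
  have hn1 : x (n + 1) < ε := hn (n + 1) (by omega)
  have hpos := x_pos (n + 1)
  have hsing : ∑' k, ({n + 1} : Set ℕ).indicator x k = x (n + 1) := by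
    rw [tsum_eq_single (n + 1)]
    · simp
    · intro k hk
      simp [hk]
  by_cases hmem : n + 1 ∈ A
  · refine ⟨∑' k, (A \ {n + 1}).indicator x k, ⟨hball ?_, A \ {n + 1}, fun h => hA h.1, rfl⟩, ?_⟩
    all_goals
      have h2 : ∑' k, A.indicator x k = ∑' k, (A \ {n + 1}).indicator x k + x (n + 1) := by
        rw [← hsing, ← Summable.tsum_add (summable_ind _) (summable_ind _)]
        apply tsum_congr
        intro k
        by_cases hk : k = n + 1
        · subst hk; simp [hmem]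
        · by_cases hkA : k ∈ A <;> simp [hk, hkA, Set.indicator_apply]
    · rw [Metric.mem_ball, Real.dist_eq, h2, abs_lt]
      constructor <;> linarith
    · rw [h2]; intro h3; linarith
  · refine ⟨∑' k, (insert (n + 1) A).indicator x k, ⟨hball ?_, insert (n + 1) A, ?_, rfl⟩, ?_⟩
    · have h2 : ∑' k, (insert (n + 1) A).indicator x k = ∑' k, A.indicator x k + x (n + 1) := by
        rw [← hsing, ← Summable.tsum_add (summable_ind _) (summable_ind _)]
        apply tsum_congr
        intro k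
        by_cases hk : k = n + 1
        · subst hk; simp [hmem]
        · by_cases hkA : k ∈ A <;> simp [hk, hkA, Set.indicator_apply]
      rw [Metric.mem_ball, Real.dist_eq, h2, abs_lt]
      constructor <;> linarith
    · simp [hA]
    · have h2 : ∑' k, (insert (n + 1) A).indicator x k = ∑' k, A.indicator x k + x (n + 1) := by
        rw [← hsing, ← Summable.tsum_add (summable_ind _) (summable_ind _)]
        apply tsum_congr
        intro k
        by_cases hk : k = n + 1
        · subst hk; simp [hmem]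
        · by_cases hkA : k ∈ A <;> simp [hk, hkA, Set.indicator_apply]
      rw [h2]; intro h3; linarith

/-- Jones's question: for `x_n = 2^{-n} + (-1)^n 3^{-n}` the achievement set `E(x_n)` is a Cantor set:
it is nonempty, compact, perfect and totally disconnected (it contains no interval). -/
theorem result : E.Nonempty ∧ IsCompact E ∧ Perfect E ∧ IsTotallyDisconnected E ∧
    (∀ a b : ℝ, a < b → ¬ Set.Ioo a b ⊆ E) := by
  have hno : ∀ a b : ℝ, a < b → ¬ Set.Ioo a b ⊆ E := by
    intro a b hab hsub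
    obtain ⟨y, h1, h2, h3⟩ := no_interval E E_cover a b hab
    exact h3 (hsub ⟨h1, h2⟩)
  refine ⟨⟨_, ∅, by simp, rfl⟩, E_compact, E_perfect, ?_, hno⟩
  intro t ht hpre a ha b hb
  by_contra hne
  rcases lt_or_gt_of_ne hne with h | h
  · exact hno a b h ((Set.Ioo_subset_Icc_self.trans (hpre.Icc_subset ha hb)).trans ht)
  · exact hno b a h ((Set.Ioo_subset_Icc_self.trans (hpre.Icc_subset hb ha)).trans ht)

end Pool.Agent.Results.MP_c19edd_an.CantorType
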